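import Pool.Agent.Helper89.GP.GoalsA

/-!
# The law of a difference of two coordinates in every chamber
-/

namespace Pool.Agent.Helper42.GP

open Finset MeasureTheory Pool.Agent.Helper89.GP

theorem gam_mp {n : ℕ} (σ : Equiv.Perm (Fin n)) :
    ∃ e : (Fin n → ℝ) ≃ᵐ (Fin n → ℝ), MeasurePreserving e volume volume ∧
      ∀ x a, e x a = x (σ a) := by
  refine ⟨MeasurableEquiv.piCongrLeft (fun _ : Fin n => ℝ) σ.symm,
    volume_measurePreserving_piCongrLeft (fun _ : Fin n => ℝ) σ.symm, fun x a => ?_⟩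
  have h := Equiv.piCongrLeft_apply_apply (fun _ : Fin n => ℝ) σ.symm x (σ a)
  rw [Equiv.symm_apply_apply] at h
  exact h

theorem gam_meas {n : ℕ} (a b : Fin n) (s t : ℝ) :
    MeasurableSet {x : Fin n → ℝ | s ≤ x b - x a ∧ x b - x a ≤ t} := by
  apply MeasurableSet.inter
  · exact measurableSet_le measurable_const ((measurable_pi_apply b).sub (measurable_pi_apply a))
  · exact measurableSet_le ((measurable_pi_apply b).sub (measurable_pi_apply a)) measurable_const

theorem gam_set {n : ℕ} (σ : Equiv.Perm (Fin n)) (e : (Fin n → ℝ) ≃ᵐ (Fin n → ℝ))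
    (he : ∀ x a, e x a = x (σ a)) (u v : Fin n) (s t : ℝ) :
    e ⁻¹' (Ch σ ∩ {x | s ≤ x v - x u ∧ x v - x u ≤ t}) =
      {x | s ≤ x (σ v) - x (σ u) ∧ x (σ v) - x (σ u) ≤ t} ∩ Ch (1 : Equiv.Perm (Fin n)) := by
  ext x
  simp only [Set.mem_preimage, Set.mem_inter_iff, Ch, Set.mem_ofPred_eq, he, Equiv.Perm.coe_one,
    id_eq]
  constructor
  · rintro ⟨⟨h1, h2⟩, h3⟩
    refine ⟨h3, fun a => ?_, fun a b hab => ?_⟩
    · have := h1 (σ.symm a)
      rwa [Equiv.apply_symm_apply] at this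
    · have := h2 (σ.symm a) (σ.symm b)
      rw [Equiv.apply_symm_apply, Equiv.apply_symm_apply] at this
      exact this hab
  · rintro ⟨h3, h1, h2⟩
    exact ⟨⟨fun a => h1 _, fun a b hab => h2 _ _ hab⟩, h3⟩

theorem gam_one (k : ℕ) (s t : ℝ) (hs : 0 ≤ s) (hst : s ≤ t) :
    ∫⁻ r in Set.Ioi (0 : ℝ), (Set.Icc s t).indicator (fun _ => (1 : ENNReal)) r *
      ENNReal.ofReal (Real.exp (-r) * r ^ k / (k.factorial : ℝ)) =
    ENNReal.ofReal (∫ r in s..t, Real.exp (-r) * r ^ k / (k.factorial : ℝ)) := by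
  have hcont : Continuous fun r : ℝ => Real.exp (-r) * r ^ k / (k.factorial : ℝ) := by fun_prop
  have h1 : ∀ r : ℝ, (Set.Icc s t).indicator (fun _ => (1 : ENNReal)) r *
      ENNReal.ofReal (Real.exp (-r) * r ^ k / (k.factorial : ℝ)) =
      (Set.Icc s t).indicator
        (fun r => ENNReal.ofReal (Real.exp (-r) * r ^ k / (k.factorial : ℝ))) r := by
    intro r
    by_cases hr : r ∈ Set.Icc s t
    · rw [Set.indicator_of_mem hr, Set.indicator_of_mem hr, one_mul]
    · rw [Set.indicator_of_notMem hr, Set.indicator_of_notMem hr, zero_mul]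
  simp_rw [h1]
  rw [setLIntegral_indicator measurableSet_Icc, intervalIntegral.integral_of_le hst]
  have h2 : (Set.Icc s t ∩ Set.Ioi 0 : Set ℝ) =ᵐ[volume] Set.Ioc s t := by
    have h3 : (Set.Ioc s t : Set ℝ) =ᵐ[volume] Set.Icc s t := Ioc_ae_eq_Icc
    refine Filter.EventuallyEq.trans ?_ h3.symm
    have h4 : ∀ᵐ x : ℝ ∂volume, x ≠ s := by
      rw [ae_iff]
      simp
    filter_upwards [h4] with x hx
    apply propext
    constructor
    · exact fun h => h.1
    · intro h
      refine ⟨h, ?_⟩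
      have h5 : s ≤ x := h.1
      exact lt_of_le_of_lt hs (lt_of_le_of_ne h5 (Ne.symm hx))
  rw [setLIntegral_congr h2, ofReal_integral_eq_lintegral_ofReal]
  · exact (hcont.continuousOn.integrableOn_Icc).mono_set Set.Ioc_subset_Icc_self
  · rw [Filter.EventuallyLE, ae_restrict_iff' measurableSet_Ioc]
    refine Filter.Eventually.of_forall fun r hr => ?_
    have : 0 ≤ r := hs.trans hr.1.le
    simp only [Pi.zero_apply]
    positivity

/-- GAM. -/
theorem gam (h : GmcStmt) : GamStmt := by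
  intro n σ u v s t huv hs hst
  obtain ⟨e, hmp, he⟩ := gam_mp σ
  rw [← hmp.setLIntegral_comp_preimage_emb e.measurableEmbedding, gam_set σ e he,
    ← setLIntegral_indicator (gam_meas (σ u) (σ v) s t)]
  have hsup : ∀ x : Fin n → ℝ, (⨆ a, e x a) = ⨆ a, x a := by
    intro x
    simp_rw [he]
    exact Equiv.iSup_comp (g := fun a => x a) σ
  have h1 := h n ((Set.Icc s t).indicator (fun _ => (1 : ENNReal))) (σ u) (σ v)
    (measurable_const.indicator measurableSet_Icc) huv
  rw [gam_one _ s t hs hst] at h1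
  unfold po
  rw [← h1]
  apply lintegral_congr
  intro x
  by_cases hx : s ≤ x (σ v) - x (σ u) ∧ x (σ v) - x (σ u) ≤ t
  · rw [Set.indicator_of_mem (show x ∈ {x : Fin n → ℝ | s ≤ x (σ v) - x (σ u) ∧
      x (σ v) - x (σ u) ≤ t} from hx), Set.indicator_of_mem (show _ ∈ Set.Icc s t from hx), one_mul, hsup]
  · rw [Set.indicator_of_notMem (show x ∉ {x : Fin n → ℝ | s ≤ x (σ v) - x (σ u) ∧
      x (σ v) - x (σ u) ≤ t} from hx), Set.indicator_of_notMem (show _ ∉ Set.Icc s t from hx), zero_mul]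

end Pool.Agent.Helper42.GP
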